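import Pool.Agent.Helper44.FP.Stmts2
import Pool.Agent.Helper44.FP.Lib

/-!
# FP: module BRIDGE
-/

namespace Pool.Agent.Helper96.FP

open Pool.Agent.Helper44.FP

universe u

section

variable {A : Type u} [CStarAlgebra A] {τ : A →ₗ[ℂ] ℂ}

theorem tau_im_zero (h : IsTracialState τ) {x : A} (hx : IsSelfAdjoint x) : (τ x).im = 0 := by
  have h1 := (h.nonneg (x + 1)).2
  have h2 := (h.nonneg (x - 1)).2
  have e : (4 : ℂ) • x = star (x + 1) * (x + 1) - star (x - 1) * (x - 1) := by
    rw [star_add, star_sub, hx.star_eq, star_one]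
    have : (4 : ℂ) • x = x + x + (x + x) := by
      rw [← two_smul ℂ x, ← two_smul ℂ ((2 : ℂ) • x), smul_smul]
      norm_num
    rw [this]
    noncomm_ring
  have h3 := congrArg τ e
  rw [map_smul, map_sub] at h3
  have h4 := congrArg Complex.im h3
  rw [Complex.sub_im, h1, h2, smul_eq_mul, Complex.mul_im] at h4
  norm_num at h4
  exact h4

theorem tau_star (h : IsTracialState τ) (a : A) : τ (star a) = (starRingEnd ℂ) (τ a) := by
  have e : a = (realPart a : A) + Complex.I • (imaginaryPart a : A) :=
    (realPart_add_I_smul_imaginaryPart a).symm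
  have h1 := tau_im_zero h (realPart a).2
  have h2 := tau_im_zero h (imaginaryPart a).2
  have e2 : star a = (realPart a : A) - Complex.I • (imaginaryPart a : A) := by
    conv_lhs => rw [e]
    rw [star_add, star_smul, (realPart a).2.star_eq, (imaginaryPart a).2.star_eq, sub_eq_add_neg,
      ← neg_smul]
    simp
  rw [e2, map_sub, map_smul]
  conv_rhs => rw [e, map_add, map_smul]
  apply Complex.ext
  · simp [h2]
  · simp [h1]

theorem real_smul_eq (r : ℝ) (a : A) : r • a = (r : ℂ) • a := (Complex.coe_smul r a).symm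

theorem isTr (h : IsTracialState τ) : IsTr (fun a : A => (τ a).re) where
  add a b := by simp
  smul r a := by
    show (τ (r • a)).re = _
    rw [real_smul_eq, map_smul, smul_eq_mul, Complex.re_ofReal_mul]
  one := by simp [h.map_one]
  comm a b := by
    show (τ (a * b)).re = (τ (b * a)).re
    rw [h.comm]
  nonneg a := (h.nonneg a).1
  star_eq a := by
    show (τ (star a)).re = (τ a).re
    rw [tau_star h, Complex.conj_re]

end

section

variable {A : Type u} [CStarAlgebra A] {t : A → ℝ}

theorem t_I_selfAdjoint (ht : IsTr t) {x : A} (hx : IsSelfAdjoint x) :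
    t (Complex.I • x) = 0 := by
  have h1 := ht.star_eq (Complex.I • x)
  rw [star_smul, hx.star_eq] at h1
  have e : star Complex.I • x = -(Complex.I • x) := by
    rw [← neg_smul]
    simp
  rw [e, ht.neg] at h1
  linarith

/-- the complex trace -/
noncomputable def cTr (ht : IsTr t) : A →ₗ[ℂ] ℂ where
  toFun a := (t a : ℂ) - Complex.I * t (Complex.I • a)
  map_add' a b := by
    rw [smul_add, ht.add, ht.add]
    push_cast
    ring
  map_smul' c a := by
    have key : ∀ (r s : ℝ) (b : A), t (((r : ℂ) + s * Complex.I) • b) =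
        r * t b + s * t (Complex.I • b) := by
      intro r s b
      rw [add_smul, mul_smul, ht.add, ← real_smul_eq, ← real_smul_eq, ht.smul, ht.smul]
    have h1 : c • a = ((c.re : ℂ) + c.im * Complex.I) • a := by rw [Complex.re_add_im]
    have h2 : Complex.I • c • a = (((-c.im : ℝ) : ℂ) + (c.re : ℝ) * Complex.I) • a := by
      rw [smul_smul]
      congr 1
      conv_lhs => rw [← Complex.re_add_im c]
      push_cast
      ring_nf
      rw [Complex.I_sq]
      ring
    rw [h2, h1, key, key, RingHom.id_apply, smul_eq_mul]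
    conv_rhs => rw [← Complex.re_add_im c]
    push_cast
    ring_nf
    rw [Complex.I_sq]
    ring

theorem cTr_re (ht : IsTr t) (a : A) : (cTr ht a).re = t a := by
  show ((t a : ℂ) - Complex.I * t (Complex.I • a)).re = t a
  simp

theorem cTr_im (ht : IsTr t) (a : A) : (cTr ht a).im = - t (Complex.I • a) := by
  show ((t a : ℂ) - Complex.I * t (Complex.I • a)).im = - t (Complex.I • a)
  simp

end

theorem BRIDGE_proof : ST_BRIDGE.{u} := by
  intro A _
  refine ⟨fun τ h => isTr h, fun t ht => ⟨cTr ht, ⟨?_, fun a => ?_, fun a b => ?_⟩, cTr_re ht⟩⟩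
  · apply Complex.ext
    · rw [cTr_re, ht.one, Complex.one_re]
    · rw [cTr_im, t_I_selfAdjoint ht (IsSelfAdjoint.one A), neg_zero, Complex.one_im]
  · rw [cTr_re, cTr_im, t_I_selfAdjoint ht (IsSelfAdjoint.star_mul_self a), neg_zero]
    exact ⟨ht.nonneg a, rfl⟩
  · apply Complex.ext
    · rw [cTr_re, cTr_re, ht.comm]
    · rw [cTr_im, cTr_im, ← smul_mul_assoc, ht.comm, mul_smul_comm]

end Pool.Agent.Helper96.FP
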