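import Pool.Agent.Helper44.FP.Stmts2

/-!
# FP: module FW
-/

namespace Pool.Agent.Helper96.FP

open Pool.Agent.Helper44.FP

universe u

section

variable {D : Type u} [CStarAlgebra D] (ι : ℕ → (C(unitInterval, ℂ) →⋆ₐ[ℂ] D)) (S : Set ℕ)

/-- the centred part of a function -/
noncomputable def cen (f : C(unitInterval, ℂ)) : C(unitInterval, ℂ) :=
  f - (∫ x, f x) • (1 : C(unitInterval, ℂ))

theorem integrable (f : C(unitInterval, ℂ)) :
    MeasureTheory.Integrable (fun x => f x) (MeasureTheory.volume : MeasureTheory.Measure unitInterval) :=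
  f.continuous.integrable_of_hasCompactSupport (HasCompactSupport.of_compactSpace _)

theorem int_cen (f : C(unitInterval, ℂ)) : ∫ x, cen f x = 0 := by
  have e : ∀ x, cen f x = f x - (∫ x, f x) := by
    intro x
    simp [cen]
  simp only [e]
  rw [MeasureTheory.integral_sub (integrable f) (MeasureTheory.integrable_const _)]
  simp

theorem cen_eq (f : C(unitInterval, ℂ)) : f = cen f + (∫ x, f x) • (1 : C(unitInterval, ℂ)) := by
  simp [cen]

theorem iota_cen (k : ℕ) (f : C(unitInterval, ℂ)) :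
    ι k f = ι k (cen f) + (∫ x, f x) • (1 : D) := by
  conv_lhs => rw [cen_eq f]
  rw [map_add, map_smul, map_one]

/-- the unital span of the words -/
noncomputable def BB : Submodule ℂ D := Submodule.span ℂ {1} ⊔ Submodule.span ℂ (wordSet ι S)

theorem one_mem : (1 : D) ∈ BB ι S :=
  Submodule.mem_sup_left (Submodule.mem_span_singleton_self 1)

theorem word_mem {d : D} (h : d ∈ wordSet ι S) : d ∈ BB ι S :=
  Submodule.mem_sup_right (Submodule.subset_span h)

theorem cons_word {k : ℕ} (hk : k ∈ S) {f : C(unitInterval, ℂ)} (hf : ∫ x, f x = 0)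
    {L : List (ℕ × C(unitInterval, ℂ))} (hL : L.IsChain (fun a b => a.1 ≠ b.1))
    (hL' : ∀ a ∈ L, a.1 ∈ S ∧ ∫ x, a.2 x = 0) (hh : ∀ b ∈ L.head?, k ≠ b.1) :
    ι k f * (L.map (fun a => ι a.1 a.2)).prod ∈ wordSet ι S := by
  refine ⟨(k, f) :: L, by simp, ?_, ?_, by simp⟩
  · rw [List.isChain_cons]
    exact ⟨hh, hL⟩
  · intro a ha
    rcases List.mem_cons.mp ha with rfl | ha
    · exact ⟨hk, hf⟩
    · exact hL' a ha

theorem mul_word {k : ℕ} (hk : k ∈ S) {f : C(unitInterval, ℂ)} (hf : ∫ x, f x = 0) {d : D}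
    (hd : d ∈ wordSet ι S) : ι k f * d ∈ BB ι S := by
  obtain ⟨L, hne, hc, hL, rfl⟩ := hd
  match L, hne, hc, hL with
  | (k', g) :: L', _, hc, hL =>
    rw [List.isChain_cons] at hc
    obtain ⟨hc1, hc2⟩ := hc
    by_cases hkk : k' = k
    · subst hkk
      have e : ι k' f * (((k', g) :: L').map (fun a => ι a.1 a.2)).prod =
          ι k' (cen (f * g)) * (L'.map (fun a => ι a.1 a.2)).prod +
            (∫ x, (f * g) x) • (L'.map (fun a => ι a.1 a.2)).prod := by
        rw [List.map_cons, List.prod_cons, ← mul_assoc, ← map_mul, iota_cen ι k' (f * g), add_mul,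
          smul_mul_assoc, one_mul]
      rw [e]
      refine Submodule.add_mem _ (word_mem ι S ?_) (Submodule.smul_mem _ _ ?_)
      · exact cons_word ι S hk (int_cen _) hc2 (fun a ha => hL a (List.mem_cons_of_mem _ ha)) hc1
      · match L', hc2, hL with
        | [], _, _ => simpa using one_mem ι S
        | c :: L'', hc2, hL =>
          exact word_mem ι S ⟨c :: L'', by simp, hc2,
            fun a ha => hL a (List.mem_cons_of_mem _ ha), rfl⟩
    · refine word_mem ι S (cons_word ι S hk hf (by rw [List.isChain_cons]; exact ⟨hc1, hc2⟩) hL ?_)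
      intro b hb
      simp only [List.head?_cons, Option.mem_def, Option.some.injEq] at hb
      rw [← hb]
      exact fun h => hkk h.symm

theorem mul_span {k : ℕ} (hk : k ∈ S) (f : C(unitInterval, ℂ)) {z : D}
    (hz : z ∈ Submodule.span ℂ (wordSet ι S)) : ι k (cen f) * z ∈ BB ι S := by
  induction hz using Submodule.span_induction with
  | mem x hx => exact mul_word ι S hk (int_cen f) hx
  | zero => rw [mul_zero]; exact Submodule.zero_mem _
  | add x y _ _ hx hy => rw [mul_add]; exact Submodule.add_mem _ hx hy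
  | smul c x _ hx => rw [mul_smul_comm]; exact Submodule.smul_mem _ _ hx

theorem mul_BB {k : ℕ} (hk : k ∈ S) (f : C(unitInterval, ℂ)) {d : D} (hd : d ∈ BB ι S) :
    ι k f * d ∈ BB ι S := by
  rw [iota_cen ι k f, add_mul, smul_mul_assoc, one_mul]
  refine Submodule.add_mem _ ?_ (Submodule.smul_mem _ _ hd)
  obtain ⟨y, hy, z, hz, rfl⟩ := Submodule.mem_sup.mp hd
  rw [mul_add]
  refine Submodule.add_mem _ ?_ (mul_span ι S hk f hz)
  obtain ⟨c, rfl⟩ := Submodule.mem_span_singleton.mp hy
  rw [mul_smul_comm, mul_one]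
  refine Submodule.smul_mem _ _ (word_mem ι S ?_)
  have := cons_word ι S hk (int_cen f) (L := []) (by simp) (by simp) (by simp)
  simpa using this

/-- the elements which multiply `BB` into itself -/
noncomputable def TT : Subalgebra ℂ D where
  carrier := {x | ∀ d ∈ BB ι S, x * d ∈ BB ι S}
  mul_mem' := by
    intro a b ha hb d hd
    rw [mul_assoc]
    exact ha _ (hb d hd)
  add_mem' := by
    intro a b ha hb d hd
    rw [add_mul]
    exact Submodule.add_mem _ (ha d hd) (hb d hd)
  algebraMap_mem' := by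
    intro c d hd
    rw [← Algebra.smul_def]
    exact Submodule.smul_mem _ _ hd

theorem adjoin_le_BB {x : D} (hx : x ∈ StarAlgebra.adjoin ℂ (⋃ k ∈ S, Set.range (ι k))) :
    x ∈ BB ι S := by
  have h1 : x ∈ (StarAlgebra.adjoin ℂ (⋃ k ∈ S, Set.range (ι k))).toSubalgebra := hx
  rw [StarAlgebra.adjoin_toSubalgebra] at h1
  have h2 : Algebra.adjoin ℂ ((⋃ k ∈ S, Set.range (ι k)) ∪ star (⋃ k ∈ S, Set.range (ι k))) ≤
      TT ι S := by
    refine Algebra.adjoin_le ?_
    rintro y (hy | hy)
    · simp only [Set.mem_iUnion, Set.mem_range] at hy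
      obtain ⟨k, hk, f, rfl⟩ := hy
      exact fun d hd => mul_BB ι S hk f hd
    · rw [Set.mem_star] at hy
      simp only [Set.mem_iUnion, Set.mem_range] at hy
      obtain ⟨k, hk, f, hf⟩ := hy
      have e : y = ι k (star f) := by rw [map_star, hf, star_star]
      rw [e]
      exact fun d hd => mul_BB ι S hk (star f) hd
  have h3 := h2 h1 1 (one_mem ι S)
  rwa [mul_one] at h3

end

theorem FW_proof : ST_FW.{u} := by
  intro D _ ι S x hx
  obtain ⟨y, hy, z, hz, rfl⟩ := Submodule.mem_sup.mp (adjoin_le_BB ι S hx)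
  obtain ⟨c, rfl⟩ := Submodule.mem_span_singleton.mp hy
  exact ⟨c, z, hz, rfl⟩

end Pool.Agent.Helper96.FP
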