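import Pool.Agent.Helper96.FP.WL

/-!
# FP: module MIXD
-/

namespace Pool.Agent.Helper96.FP

open Pool.Agent.Helper44.FP

universe u

theorem tau_bound {A : Type u} [CStarAlgebra A] [PartialOrder A] [StarOrderedRing A]
    {τ : A →ₗ[ℂ] ℂ} (h : IsTracialState τ) (a : A) : ‖τ a‖ ≤ 2 * ‖a‖ := by
  have h1 := (isTr h).abs_le_norm a
  have h2 := (isTr h).abs_le_norm (Complex.I • a)
  have e : (τ (Complex.I • a)).re = -(τ a).im := by
    rw [map_smul, smul_eq_mul, Complex.I_mul_re]
  simp only [e, abs_neg, norm_smul, Complex.norm_I, one_mul] at h2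
  have h3 := Complex.norm_le_abs_re_add_abs_im (τ a)
  linarith

theorem MIXD_proof : ST_MIXD.{u} := by
  intro D _ _ _ τ ι h S hS κ hκ
  classical
  set M : ℝ := ∑ x ∈ S, ‖x‖ with hM
  have M0 : 0 ≤ M := Finset.sum_nonneg fun x _ => norm_nonneg x
  have hMx : ∀ x ∈ S, ‖x‖ ≤ M := fun x hx =>
    Finset.single_le_sum (f := fun x : D => ‖x‖) (fun x _ => norm_nonneg x) hx
  set δ : ℝ := min 1 (κ / (12 * M + 6)) with hδ
  have δ0 : 0 < δ := lt_min one_pos (by positivity)
  have δ1 : δ ≤ 1 := min_le_left _ _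
  have δ2 : δ * (12 * M + 6) ≤ κ := by
    have := min_le_right (1 : ℝ) (κ / (12 * M + 6))
    rwa [← hδ, le_div_iff₀ (by positivity)] at this
  choose N' c u hu hx using fun x : D => approx h x δ0
  set N := S.sup N' with hN
  have hu' : ∀ x ∈ S, u x ∈ Submodule.span ℂ (wordSet ι {k | k < N}) := fun x hx' =>
    span_mono (lt_sub (Finset.le_sup hx')) (hu x)
  have hw := ww_unitary (ι := ι) N
  have hwn : ‖ι N ee‖ ≤ 1 := by
    have h1 : ‖ι N ee‖ * ‖ι N ee‖ ≤ 1 := by
      rw [← CStarRing.norm_star_mul_self, Unitary.star_mul_self_of_mem hw]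
      have h2 := (CStarAlgebra.norm_le_one_iff_of_nonneg (1 : D) zero_le_one).mpr le_rfl
      exact h2
    nlinarith [norm_nonneg (ι N ee)]
  have hwn' : ‖star (ι N ee)‖ ≤ 1 := by rwa [norm_star]
  refine ⟨1, fun _ => ι N ee, fun _ => 1, fun _ => hw, fun _ => zero_le_one, by simp, ?_⟩
  intro x hxS y hyS
  set x' := c x • (1 : D) + u x with hx'
  set y' := c y • (1 : D) + u y with hy'
  have hxx : ‖x - x'‖ ≤ δ := (hx x).le
  have hyy : ‖y - y'‖ ≤ δ := (hx y).le
  have hxM := hMx x hxS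
  have hyM := hMx y hyS
  have hx'M : ‖x'‖ ≤ M + 1 := by
    have : ‖x'‖ ≤ ‖x‖ + ‖x - x'‖ := by
      have e : x' = x - (x - x') := by abel
      conv_lhs => rw [e]
      exact norm_sub_le _ _
    linarith
  have mix : τ (ι N ee * x' * star (ι N ee) * y') = τ x' * τ y' :=
    tau_mix h (c x) (c y) (hu' x hxS) (hu' y hyS)
  have t1 : ‖τ (ι N ee * x * star (ι N ee) * y) - τ (ι N ee * x' * star (ι N ee) * y')‖ ≤
      2 * (δ * (2 * M + 1)) := by
    rw [← map_sub]
    refine (tau_bound h.tracial _).trans (mul_le_mul_of_nonneg_left ?_ (by norm_num))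
    have e : ι N ee * x * star (ι N ee) * y - ι N ee * x' * star (ι N ee) * y' =
        ι N ee * (x - x') * star (ι N ee) * y + ι N ee * x' * star (ι N ee) * (y - y') := by
      noncomm_ring
    rw [e]
    have b1 : ‖ι N ee * (x - x') * star (ι N ee) * y‖ ≤ δ * M := by
      calc ‖ι N ee * (x - x') * star (ι N ee) * y‖
          ≤ ‖ι N ee‖ * ‖x - x'‖ * ‖star (ι N ee)‖ * ‖y‖ := by
            refine (norm_mul_le _ _).trans (mul_le_mul_of_nonneg_right ?_ (norm_nonneg _))
            refine (norm_mul_le _ _).trans (mul_le_mul_of_nonneg_right ?_ (norm_nonneg _))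
            exact norm_mul_le _ _
        _ ≤ 1 * δ * 1 * M := by gcongr
        _ = δ * M := by ring
    have b2 : ‖ι N ee * x' * star (ι N ee) * (y - y')‖ ≤ (M + 1) * δ := by
      calc ‖ι N ee * x' * star (ι N ee) * (y - y')‖
          ≤ ‖ι N ee‖ * ‖x'‖ * ‖star (ι N ee)‖ * ‖y - y'‖ := by
            refine (norm_mul_le _ _).trans (mul_le_mul_of_nonneg_right ?_ (norm_nonneg _))
            refine (norm_mul_le _ _).trans (mul_le_mul_of_nonneg_right ?_ (norm_nonneg _))
            exact norm_mul_le _ _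
        _ ≤ 1 * (M + 1) * 1 * δ := by gcongr
        _ = (M + 1) * δ := by ring
    refine (norm_add_le _ _).trans ?_
    linarith
  have t2 : ‖τ x * τ y - τ x' * τ y'‖ ≤ δ * (8 * M + 4) := by
    have e : τ x * τ y - τ x' * τ y' = τ (x - x') * τ y + τ x' * τ (y - y') := by
      rw [map_sub, map_sub]
      ring
    rw [e]
    have b1 : ‖τ (x - x')‖ ≤ 2 * δ := (tau_bound h.tracial _).trans (by linarith)
    have b2 : ‖τ y‖ ≤ 2 * M := (tau_bound h.tracial _).trans (by linarith)
    have b3 : ‖τ x'‖ ≤ 2 * (M + 1) := (tau_bound h.tracial _).trans (by linarith)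
    have b4 : ‖τ (y - y')‖ ≤ 2 * δ := (tau_bound h.tracial _).trans (by linarith)
    refine (norm_add_le _ _).trans ?_
    rw [norm_mul, norm_mul]
    have b5 : ‖τ (x - x')‖ * ‖τ y‖ ≤ 2 * δ * (2 * M) := by gcongr
    have b6 : ‖τ x'‖ * ‖τ (y - y')‖ ≤ 2 * (M + 1) * (2 * δ) := by gcongr
    linarith
  have imx : (τ x).im = 0 := tau_im_zero h.tracial (hS x hxS)
  have key : ‖τ (ι N ee * x * star (ι N ee) * y) - τ x * τ y‖ ≤ κ := by
    have e : τ (ι N ee * x * star (ι N ee) * y) - τ x * τ y =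
        (τ (ι N ee * x * star (ι N ee) * y) - τ (ι N ee * x' * star (ι N ee) * y')) -
        (τ x * τ y - τ x' * τ y') := by
      rw [mix]
      ring
    rw [e]
    refine (norm_sub_le _ _).trans ?_
    linarith
  have hre := (Complex.abs_re_le_norm _).trans key
  rw [Complex.sub_re, Complex.mul_re, imx, zero_mul, sub_zero] at hre
  simpa using hre

end Pool.Agent.Helper96.FP
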