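import Pool.Agent.Helper96.FP.BRIDGE
import Pool.Agent.Helper96.FP.FW

/-!
# FP: facts on words, and the trigonometric unitary
-/

namespace Pool.Agent.Helper96.FP

open Pool.Agent.Helper44.FP

universe u

/-! ### the function `exp (2 π i x)` -/

/-- `exp (2 π i x)` -/
noncomputable def ee : C(unitInterval, ℂ) :=
  ⟨fun x => Complex.exp (2 * Real.pi * Complex.I * ((x : ℝ) : ℂ)), by fun_prop⟩

theorem ee_apply (x : unitInterval) :
    ee x = Complex.exp (2 * Real.pi * Complex.I * ((x : ℝ) : ℂ)) := rfl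

theorem int_ee : ∫ x, ee x = 0 := by
  have h1 : ∫ x : unitInterval, ee x =
      ∫ x in (Set.Icc (0 : ℝ) 1), Complex.exp (2 * Real.pi * Complex.I * (x : ℂ)) :=
    MeasureTheory.integral_subtype measurableSet_Icc
      (fun x : ℝ => Complex.exp (2 * Real.pi * Complex.I * (x : ℂ)))
  rw [h1, MeasureTheory.integral_Icc_eq_integral_Ioc,
    ← intervalIntegral.integral_of_le (zero_le_one' ℝ),
    integral_exp_mul_complex (by simp [Real.pi_ne_zero])]
  have h2 : Complex.exp (2 * Real.pi * Complex.I * ((1 : ℝ) : ℂ)) = 1 := by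
    rw [Complex.ofReal_one, mul_one]
    exact Complex.exp_two_pi_mul_I
  rw [h2]
  simp

theorem int_star_ee : ∫ x, (star ee) x = 0 := by
  have h : ∫ x, (star ee) x = (starRingEnd ℂ) (∫ x, ee x) := integral_conj
  rw [h, int_ee, map_zero]

theorem star_ee_mul : star ee * ee = 1 := by
  ext x
  show (starRingEnd ℂ) (ee x) * ee x = 1
  rw [ee_apply, ← Complex.exp_conj, ← Complex.exp_add]
  have e : (starRingEnd ℂ) (2 * Real.pi * Complex.I * ((x : ℝ) : ℂ)) +
      2 * Real.pi * Complex.I * ((x : ℝ) : ℂ) = 0 := by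
    simp only [map_mul, Complex.conj_ofReal, Complex.conj_I, map_ofNat]
    ring
  rw [e, Complex.exp_zero]

theorem ee_mul_star : ee * star ee = 1 := by rw [mul_comm, star_ee_mul]

section

variable {D : Type u} [CStarAlgebra D] {τ : D →ₗ[ℂ] ℂ} {ι : ℕ → (C(unitInterval, ℂ) →⋆ₐ[ℂ] D)}

theorem ww_unitary (N : ℕ) : ι N ee ∈ unitary D := by
  rw [Unitary.mem_iff]
  constructor
  · rw [← map_star, ← map_mul, star_ee_mul, map_one]
  · rw [← map_star, ← map_mul, ee_mul_star, map_one]

theorem wordSet_mono {S S' : Set ℕ} (h : S ⊆ S') : wordSet ι S ⊆ wordSet ι S' := by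
  rintro d ⟨L, h1, h2, h3, h4⟩
  exact ⟨L, h1, h2, fun a ha => ⟨h (h3 a ha).1, (h3 a ha).2⟩, h4⟩

theorem span_mono {S S' : Set ℕ} (h : S ⊆ S') :
    Submodule.span ℂ (wordSet ι S) ≤ Submodule.span ℂ (wordSet ι S') :=
  Submodule.span_mono (wordSet_mono h)

theorem lt_sub {N N' : ℕ} (h : N ≤ N') : {k : ℕ | k < N} ⊆ {k : ℕ | k < N'} :=
  fun _ hk => lt_of_lt_of_le hk h

/-- elements of the span of all words only involve finitely many copies -/
theorem span_fin {S : Set ℕ} {u : D} (h : u ∈ Submodule.span ℂ (wordSet ι S)) :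
    ∃ N : ℕ, u ∈ Submodule.span ℂ (wordSet ι {k | k < N}) := by
  induction h using Submodule.span_induction with
  | mem x hx =>
    obtain ⟨L, h1, h2, h3, h4⟩ := hx
    refine ⟨(L.map Prod.fst).sum + 1, Submodule.subset_span ⟨L, h1, h2, fun a ha => ⟨?_, (h3 a ha).2⟩,
      h4⟩⟩
    have : a.1 ≤ (L.map Prod.fst).sum := List.single_le_sum (fun x _ => Nat.zero_le x) _
      (List.mem_map_of_mem ha)
    exact Nat.lt_succ_of_le this
  | zero => exact ⟨0, Submodule.zero_mem _⟩
  | add x y _ _ hx hy =>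
    obtain ⟨N, hN⟩ := hx
    obtain ⟨N', hN'⟩ := hy
    exact ⟨max N N', Submodule.add_mem _ (span_mono (lt_sub (le_max_left _ _)) hN)
      (span_mono (lt_sub (le_max_right _ _)) hN')⟩
  | smul c x _ hx =>
    obtain ⟨N, hN⟩ := hx
    exact ⟨N, Submodule.smul_mem _ _ hN⟩

/-- the trace vanishes on words -/
theorem tau_span (h : IsFreePower D τ ι) {S : Set ℕ} {u : D}
    (hu : u ∈ Submodule.span ℂ (wordSet ι S)) : τ u = 0 := by
  induction hu using Submodule.span_induction with
  | mem x hx =>
    obtain ⟨L, h1, h2, h3, rfl⟩ := hx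
    exact h.free L h1 h2 (fun a ha => (h3 a ha).2)
  | zero => exact map_zero τ
  | add x y _ _ hx hy => rw [map_add, hx, hy, add_zero]
  | smul c x _ hx => rw [map_smul, hx, smul_zero]

/-- the product of the words `w`, `u`, `w*`, `v` is a word -/
theorem word4 {N : ℕ} {u v : D} (hu : u ∈ wordSet ι {k | k < N}) (hv : v ∈ wordSet ι {k | k < N}) :
    ι N ee * u * star (ι N ee) * v ∈ wordSet ι {k | k < N + 1} := by
  obtain ⟨L, h1, h2, h3, rfl⟩ := hu
  obtain ⟨L', h1', h2', h3', rfl⟩ := hv
  refine ⟨(N, ee) :: (L ++ (N, star ee) :: L'), by simp, ?_, ?_, ?_⟩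
  · rw [List.isChain_cons]
    constructor
    · intro b hb
      rw [List.head?_append_of_ne_nil _ h1] at hb
      have hb' := List.mem_of_mem_head? hb
      exact (ne_of_lt (h3 b hb').1).symm
    · rw [List.isChain_append]
      refine ⟨h2, ?_, ?_⟩
      · rw [List.isChain_cons]
        refine ⟨?_, h2'⟩
        intro b hb
        have hb' := List.mem_of_mem_head? hb
        exact (ne_of_lt (h3' b hb').1).symm
      · intro a ha b hb
        have ha' := List.mem_of_mem_getLast? ha
        simp only [List.head?_cons, Option.mem_def, Option.some.injEq] at hb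
        rw [← hb]
        exact ne_of_lt (h3 a ha').1
  · intro a ha
    rw [List.mem_cons, List.mem_append, List.mem_cons] at ha
    rcases ha with rfl | ha | rfl | ha
    · exact ⟨Nat.lt_succ_self N, int_ee⟩
    · exact ⟨Nat.lt_succ_of_lt (h3 a ha).1, (h3 a ha).2⟩
    · exact ⟨Nat.lt_succ_self N, int_star_ee⟩
    · exact ⟨Nat.lt_succ_of_lt (h3' a ha).1, (h3' a ha).2⟩
  · rw [List.map_cons, List.prod_cons, List.map_append, List.prod_append, List.map_cons,
      List.prod_cons, ← map_star]
    simp only [mul_assoc]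

theorem tau4 (h : IsFreePower D τ ι) {N : ℕ} {u v : D}
    (hu : u ∈ Submodule.span ℂ (wordSet ι {k | k < N}))
    (hv : v ∈ Submodule.span ℂ (wordSet ι {k | k < N})) :
    τ (ι N ee * u * star (ι N ee) * v) = 0 := by
  induction hu using Submodule.span_induction with
  | mem x hx =>
    induction hv using Submodule.span_induction with
    | mem y hy => exact tau_span h (Submodule.subset_span (word4 hx hy))
    | zero => rw [mul_zero, map_zero]
    | add y z _ _ hy hz => rw [mul_add, map_add, hy, hz, add_zero]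
    | smul c y _ hy => rw [mul_smul_comm, map_smul, hy, smul_zero]
  | zero => rw [mul_zero, zero_mul, zero_mul, map_zero]
  | add x y _ _ hx hy => rw [mul_add, add_mul, add_mul, map_add, hx, hy, add_zero]
  | smul c x _ hx =>
    rw [mul_smul_comm, smul_mul_assoc, smul_mul_assoc, map_smul, hx, smul_zero]

/-- exact factorisation on the copies with index less than `N` -/
theorem tau_mix (h : IsFreePower D τ ι) {N : ℕ} {u v : D} (c d : ℂ)
    (hu : u ∈ Submodule.span ℂ (wordSet ι {k | k < N}))
    (hv : v ∈ Submodule.span ℂ (wordSet ι {k | k < N})) :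
    τ (ι N ee * (c • (1 : D) + u) * star (ι N ee) * (d • (1 : D) + v)) =
      τ (c • (1 : D) + u) * τ (d • (1 : D) + v) := by
  have hw := ww_unitary (ι := ι) N
  have e : ι N ee * (c • (1 : D) + u) * star (ι N ee) * (d • (1 : D) + v) =
      (c * d) • (1 : D) + c • v + d • (ι N ee * u * star (ι N ee)) +
        ι N ee * u * star (ι N ee) * v := by
    have h1 : ι N ee * star (ι N ee) = 1 := Unitary.mul_star_self_of_mem hw
    have h0 : ι N ee * (c • (1 : D) + u) * star (ι N ee) =
        c • (1 : D) + ι N ee * u * star (ι N ee) := by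
      rw [mul_add, mul_smul_comm, mul_one, add_mul, smul_mul_assoc, h1]
    rw [h0, add_mul, mul_add, mul_add, smul_mul_smul_comm, one_mul, smul_mul_assoc, one_mul,
      mul_smul_comm, mul_one]
    abel
  have h2 : τ (ι N ee * u * star (ι N ee)) = 0 := by
    rw [h.tracial.comm, ← mul_assoc, Unitary.star_mul_self_of_mem hw, one_mul, tau_span h hu]
  rw [e, map_add, map_add, map_add, map_smul, map_smul, map_smul, tau4 h hu hv, h2,
    tau_span h hv, map_add, map_add, map_smul, map_smul, tau_span h hu, tau_span h hv,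
    h.tracial.map_one]
  simp

/-- approximation by elements of finitely many copies -/
theorem approx (h : IsFreePower D τ ι) (x : D) {δ : ℝ} (hδ : 0 < δ) :
    ∃ (N : ℕ) (c : ℂ) (u : D), u ∈ Submodule.span ℂ (wordSet ι {k | k < N}) ∧
      ‖x - (c • (1 : D) + u)‖ < δ := by
  obtain ⟨y, hy, hxy⟩ := h.generates.exists_dist_lt x hδ
  have hy' : y ∈ StarAlgebra.adjoin ℂ (⋃ k ∈ (Set.univ : Set ℕ), Set.range (ι k)) := by
    rw [Set.biUnion_univ]
    exact hy
  obtain ⟨c, u, hu, rfl⟩ := FW_proof D ι Set.univ y hy'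
  obtain ⟨N, hN⟩ := span_fin hu
  exact ⟨N, c, u, hN, by rwa [← dist_eq_norm]⟩

end

end Pool.Agent.Helper96.FP
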